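import Pool.Agent.Lib_helper57.YF.Classes

/-!
# Reductions with a constant number of rounds of queries, for the machine model of `CKF.Defs`
-/

set_option autoImplicit false

namespace Pool.Agent.CK

/-- `A` reduces to `B`, relative to `O`, by a polynomial time Turing reduction with at most `R`
rounds of nonadaptive queries, `R` a constant.  In each round the program `q` writes down a list
`l` of queries in time `(|x| + 2) ^ k`, from `x` and the answers `a i` of `B` in the rounds before
(on stack `1`); `q` has access to `O`, not to `B`.  It writes the empty list after the last round,
and then the program `c` decides `A x` in this time from `x` and all answers. -/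
def ConstRoundsReducible (O A B : Lang) : Prop :=
  ∃ (q c : Cmd) (k R : ℕ) (r : List Bool → ℕ), (∀ x, r x ≤ R) ∧
    ∀ x : List Bool, ∃ a : ℕ → List Bool, a 0 = [] ∧
      (∀ i < r x, ∃ l : List (List Bool),
        Halts O q x (a i) ((x.length + 2) ^ k) ∧
        (run O q x (a i) ((x.length + 2) ^ k)).2 0 = l.flatMap code ∧
        a (i + 1) = a i ++ l.map B) ∧
      Halts O q x (a (r x)) ((x.length + 2) ^ k) ∧
      (run O q x (a (r x)) ((x.length + 2) ^ k)).2 0 = [] ∧
      Halts O c x (a (r x)) ((x.length + 2) ^ k) ∧
      (Accepts O c x (a (r x)) ((x.length + 2) ^ k) ↔ A x = true)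

/-- `C` is in `NP` and all languages in `NP` reduce to it by reductions with a constant number of
rounds of queries (the constant may depend on the language), relative to `O`. -/
def ConstRoundsComplete (O C : Lang) : Prop :=
  InNP O C ∧ ∀ A, InNP O A → ConstRoundsReducible O A C

end Pool.Agent.CK
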